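import Mathlib

/-!
Quaternionic data (without any group structure on the set of values): Fourier analysis of the
relation `q (x, s) ∈ q (t, V)`, and periodicity of the sets `P ψ` when no line lies in a `P χ`.
-/

namespace Pool.Agent.Helper58.PLine

/-- Quaternionic data on an `F_2`-space `V`, written additively. -/
structure QData (V Q : Type) [AddCommGroup V] [Module (ZMod 2) V] where
  q : V → V → Q
  z : Q
  e : V
  symm : ∀ x y, q x y = q y x
  add : ∀ x y w, q x y = q x w ↔ q x (y + w) = z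
  diag : ∀ x, q x (x + e) = z
  link : ∀ a b c d, q a b = q c d → ∃ x, q a b = q a x ∧ q c d = q c x

theorem zm (a : ZMod 2) : a = 0 ∨ a = 1 := by revert a; decide

theorem zm_ne_zero {a : ZMod 2} (h : a ≠ 0) : a = 1 := by revert a; decide

section two
variable {M : Type} [AddCommGroup M] [Module (ZMod 2) M]

theorem add_add_self (x y : M) : x + (x + y) = y := by
  rw [← add_assoc, ZModModule.add_self, zero_add]

theorem add_self_add (x y : M) : x + y + y = x := by
  rw [add_assoc, ZModModule.add_self, add_zero]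

theorem eq_of_add_eq_zero {x y : M} (h : x + y = 0) : x = y := by
  have := congrArg (fun t => t + y) h
  simp only [zero_add] at this
  rwa [add_self_add] at this

theorem exists_functional {p : Submodule (ZMod 2) M} {x : M} (hx : x ∉ p) :
    ∃ f : M →ₗ[ZMod 2] ZMod 2, f x = 1 ∧ ∀ y ∈ p, f y = 0 := by
  obtain ⟨f, hf, hp⟩ := Submodule.exists_dual_map_eq_bot_of_notMem hx inferInstance
  refine ⟨f, zm_ne_zero hf, fun y hy => ?_⟩
  have : f y ∈ p.map f := Submodule.mem_map_of_mem hy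
  rw [hp] at this
  simpa using this

end two

/-- The sign of an element of `F_2`. -/
def sgn (a : ZMod 2) : ℤ := if a = 0 then 1 else -1

@[simp] theorem sgn_zero : sgn 0 = 1 := by simp [sgn]

@[simp] theorem sgn_one : sgn 1 = -1 := by simp [sgn]

theorem sgn_add (a b : ZMod 2) : sgn (a + b) = sgn a * sgn b := by
  revert a b; decide

theorem sgn_ne_zero (a : ZMod 2) : sgn a ≠ 0 := by
  rcases zm a with rfl | rfl <;> simp

section sums
variable {M : Type} [AddCommGroup M] [Module (ZMod 2) M] [Fintype M]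

open Classical in
/-- Orthogonality of characters on a subspace. -/
theorem sum_sgn (W : Submodule (ZMod 2) M) (ψ : M →ₗ[ZMod 2] ZMod 2) :
    ∑ s : M, (if s ∈ W then sgn (ψ s) else 0) =
      if ∀ s ∈ W, ψ s = 0 then (Nat.card W : ℤ) else 0 := by
  split_ifs with h
  · have h1 : ∀ s : M, (if s ∈ W then sgn (ψ s) else 0) = if s ∈ W then (1 : ℤ) else 0 := by
      intro s
      split_ifs with hs
      · rw [h s hs, sgn_zero]
      · rfl
    rw [Finset.sum_congr rfl (fun s _ => h1 s), Finset.sum_boole, Nat.card_eq_fintype_card,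
      Fintype.card_subtype]
  · push Not at h
    obtain ⟨s₀, hs₀, h0⟩ := h
    have h1 := zm_ne_zero h0
    have h2 : ∑ s : M, (if s ∈ W then sgn (ψ s) else 0) =
        -∑ s : M, (if s ∈ W then sgn (ψ s) else 0) := by
      conv_lhs => rw [← Equiv.sum_comp (Equiv.addRight s₀)]
      rw [← Finset.sum_neg_distrib]
      apply Finset.sum_congr rfl
      intro s _
      rw [Equiv.coe_addRight]
      have h3 : s + s₀ ∈ W ↔ s ∈ W := Submodule.add_mem_iff_left W hs₀
      by_cases hs : s ∈ W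
      · rw [if_pos (h3.2 hs), if_pos hs, map_add, sgn_add, h1, sgn_one]; ring
      · rw [if_neg (fun h => hs (h3.1 h)), if_neg hs, neg_zero]
    omega

end sums

namespace QData

variable {V Q : Type} [AddCommGroup V] [Module (ZMod 2) V] (D : QData V Q)

theorem q_zero (x : V) : D.q x 0 = D.z := by
  have := (D.add x 0 0).1 rfl
  rwa [add_zero] at this

/-- `V_x = {v : q (x, v) = 0}`. -/
def ann (x : V) : Submodule (ZMod 2) V where
  carrier := {v | D.q x v = D.z}
  add_mem' := by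
    intro a b ha hb
    exact (D.add x a b).1 (by rw [ha, hb])
  zero_mem' := D.q_zero x
  smul_mem' := by
    intro c v hv
    rcases zm c with rfl | rfl
    · rw [zero_smul]; exact D.q_zero x
    · rw [one_smul]; exact hv

theorem mem_ann {x v : V} : v ∈ D.ann x ↔ D.q x v = D.z := Iff.rfl

theorem eq_iff {x v w : V} : D.q x v = D.q x w ↔ v + w ∈ D.ann x := D.add x v w

theorem eq_iff' {x y v : V} : D.q x v = D.q y v ↔ v ∈ D.ann (x + y) := by
  rw [D.symm x v, D.symm y v, D.add, D.symm, mem_ann]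

theorem mem_ann_comm {x v : V} : v ∈ D.ann x ↔ x ∈ D.ann v := by
  rw [mem_ann, mem_ann, D.symm]

theorem ann_zero (v : V) : v ∈ D.ann 0 := by
  rw [mem_ann, D.symm, D.q_zero]

theorem self_mem (x : V) : x + D.e ∈ D.ann x := D.diag x

/-- The relation `q (x, s) ∈ q (t, V)`. -/
def Rel (t x s : V) : Prop := ∃ w, D.q x s = D.q t w

theorem Rel.comm {t x s : V} (h : D.Rel t x s) : D.Rel t s x := by
  obtain ⟨w, h⟩ := h
  exact ⟨w, by rw [D.symm, h]⟩

/-- By linkage, `q (x, s) ∈ q (t, V)` iff `s ∈ V_x + V_{x + t}`. -/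
theorem rel_iff {t x s : V} : D.Rel t x s ↔ s ∈ D.ann x ⊔ D.ann (x + t) := by
  constructor
  · rintro ⟨w, h⟩
    obtain ⟨v, h1, h2⟩ := D.link _ _ _ _ h
    have h3 : s + v ∈ D.ann x := (D.eq_iff).1 h1
    have h4 : v ∈ D.ann (x + t) := (D.eq_iff').1 (by rw [← h1, h, h2])
    rw [← add_self_add s v]
    exact Submodule.add_mem_sup h3 h4
  · intro h
    obtain ⟨a, ha, v, hv, rfl⟩ := Submodule.mem_sup.1 h
    refine ⟨v, ?_⟩
    rw [← (D.eq_iff').2 hv, D.eq_iff, add_self_add]
    exact ha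

/-- `P ψ = {x : V_x ≤ ker ψ}`. -/
def P (ψ : V →ₗ[ZMod 2] ZMod 2) (x : V) : Prop := ∀ v, v ∈ D.ann x → ψ v = 0

theorem P_zero (x : V) : D.P 0 x := fun _ _ => rfl

theorem not_P_zero {ψ : V →ₗ[ZMod 2] ZMod 2} (h : ψ ≠ 0) : ¬ D.P ψ 0 := by
  intro hP
  apply h
  ext v
  exact hP v (D.ann_zero v)

theorem P.add {ψ χ : V →ₗ[ZMod 2] ZMod 2} {x : V} (h1 : D.P ψ x) (h2 : D.P χ x) :
    D.P (ψ + χ) x := by
  intro v hv
  rw [LinearMap.add_apply, h1 v hv, h2 v hv, add_zero]

theorem perp_iff {ψ : V →ₗ[ZMod 2] ZMod 2} {t x : V} :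
    (∀ s ∈ D.ann x ⊔ D.ann (x + t), ψ s = 0) ↔ D.P ψ x ∧ D.P ψ (x + t) := by
  constructor
  · intro h
    exact ⟨fun v hv => h v (Submodule.mem_sup_left hv), fun v hv => h v (Submodule.mem_sup_right hv)⟩
  · rintro ⟨h1, h2⟩ s hs
    obtain ⟨a, ha, v, hv, rfl⟩ := Submodule.mem_sup.1 hs
    rw [map_add, h1 a ha, h2 v hv, add_zero]

/-- The weight of `x` at `t`. -/
noncomputable def wt (t x : V) : ℤ := Nat.card (D.ann x ⊔ D.ann (x + t) : Submodule (ZMod 2) V)

theorem wt_pos [Finite V] (t x : V) : 0 < D.wt t x := by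
  unfold wt
  exact_mod_cast Nat.card_pos

variable [Fintype V]

open Classical in
/-- The double Fourier transform of the relation `Rel t`. -/
noncomputable def T (t : V) (φ ψ : V →ₗ[ZMod 2] ZMod 2) : ℤ :=
  ∑ x : V, if D.P ψ x ∧ D.P ψ (x + t) then D.wt t x * sgn (φ x) else 0

open Classical in
theorem T_eq (t : V) (φ ψ : V →ₗ[ZMod 2] ZMod 2) :
    D.T t φ ψ = ∑ x : V, ∑ s : V, if D.Rel t x s then sgn (φ x) * sgn (ψ s) else 0 := by
  unfold T
  apply Finset.sum_congr rfl
  intro x _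
  have h1 : ∀ s : V, (if D.Rel t x s then sgn (φ x) * sgn (ψ s) else 0) =
      sgn (φ x) * if s ∈ (D.ann x ⊔ D.ann (x + t) : Submodule (ZMod 2) V) then sgn (ψ s)
        else 0 := by
    intro s
    by_cases h : D.Rel t x s
    · rw [if_pos h, if_pos ((D.rel_iff).1 h)]
    · rw [if_neg h, if_neg (fun h' => h ((D.rel_iff).2 h')), mul_zero]
  rw [Finset.sum_congr rfl (fun s _ => h1 s), ← Finset.mul_sum, sum_sgn]
  by_cases h : D.P ψ x ∧ D.P ψ (x + t)
  · rw [if_pos h, if_pos ((D.perp_iff).2 h), mul_comm]; rfl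
  · rw [if_neg h, if_neg (fun h' => h ((D.perp_iff).1 h')), mul_zero]

/-- Reciprocity. -/
theorem T_comm (t : V) (φ ψ : V →ₗ[ZMod 2] ZMod 2) : D.T t φ ψ = D.T t ψ φ := by
  classical
  rw [T_eq, T_eq, Finset.sum_comm]
  apply Finset.sum_congr rfl
  intro s _
  apply Finset.sum_congr rfl
  intro x _
  by_cases h : D.Rel t x s
  · rw [if_pos h, if_pos h.comm, mul_comm]
  · rw [if_neg h, if_neg (fun h' => h h'.comm)]

theorem T_zero_pos {t : V} {ψ : V →ₗ[ZMod 2] ZMod 2} {x : V} (h1 : D.P ψ x) (h2 : D.P ψ (x + t)) :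
    0 < D.T t 0 ψ := by
  classical
  unfold T
  refine Finset.sum_pos' ?_ ⟨x, Finset.mem_univ x, ?_⟩
  · intro y _
    split_ifs
    · have := D.wt_pos t y
      simp only [LinearMap.zero_apply, sgn_zero, mul_one]; omega
    · exact le_rfl
  · rw [if_pos ⟨h1, h2⟩]
    have := D.wt_pos t x
    simp only [LinearMap.zero_apply, sgn_zero, mul_one]; omega

theorem T_eq_zero {t : V} {φ ψ : V →ₗ[ZMod 2] ZMod 2} (h : ∀ x, ¬ (D.P ψ x ∧ D.P ψ (x + t))) :
    D.T t φ ψ = 0 := by
  classical
  unfold T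
  apply Finset.sum_eq_zero
  intro x _
  rw [if_neg (h x)]

/-- No three points `x, y, x + y` in a set `P ψ`. -/
def NoLine : Prop := ∀ (ψ : V →ₗ[ZMod 2] ZMod 2) (x y : V), ψ ≠ 0 → D.P ψ x → D.P ψ y →
  x ≠ y → ¬ D.P ψ (x + y)

variable {D}

/-- If `x` and `x + t` lie in `P ψ`, then every coset of `V_t` contains such an `x`. -/
theorem exists_mem_coset (hD : D.NoLine) {t : V} (ht : t ≠ 0) {ψ : V →ₗ[ZMod 2] ZMod 2} {x : V}
    (h1 : D.P ψ x) (h2 : D.P ψ (x + t)) (g : V) :
    ∃ c, D.P ψ c ∧ D.P ψ (c + t) ∧ g + c ∈ D.ann t := by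
  classical
  by_contra hc
  push Not at hc
  have hfin : Finite (V →ₗ[ZMod 2] ZMod 2) :=
    Finite.of_injective (fun f : V →ₗ[ZMod 2] ZMod 2 => (f : V → ZMod 2)) DFunLike.coe_injective
  have : Fintype (V →ₗ[ZMod 2] ZMod 2) := Fintype.ofFinite _
  -- the annihilator of `V_t`
  let W : Submodule (ZMod 2) (V →ₗ[ZMod 2] ZMod 2) :=
    { carrier := {χ | ∀ v ∈ D.ann t, χ v = 0}
      add_mem' := by
        intro a b ha hb v hv
        rw [LinearMap.add_apply, ha v hv, hb v hv, add_zero]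
      zero_mem' := fun v _ => rfl
      smul_mem' := by
        intro c a ha v hv
        rw [LinearMap.smul_apply, ha v hv, smul_zero] }
  have hW : ∀ χ, χ ∈ W ↔ ∀ v ∈ D.ann t, χ v = 0 := fun χ => Iff.rfl
  let ev : V → ((V →ₗ[ZMod 2] ZMod 2) →ₗ[ZMod 2] ZMod 2) := fun v =>
    { toFun := fun χ => χ v
      map_add' := fun a b => rfl
      map_smul' := fun c a => rfl }
  have hS1 : ∑ χ : V →ₗ[ZMod 2] ZMod 2, (if χ ∈ W then sgn (χ g) * D.T t χ ψ else 0) =
      D.T t 0 ψ := by
    rw [Finset.sum_eq_single (0 : V →ₗ[ZMod 2] ZMod 2)]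
    · rw [if_pos W.zero_mem, LinearMap.zero_apply, sgn_zero, one_mul]
    · intro χ _ hχ
      split_ifs with hW'
      · rw [D.T_comm, D.T_eq_zero, mul_zero]
        rintro y ⟨hy1, hy2⟩
        have hyt : y ≠ t := by
          rintro rfl
          rw [ZModModule.add_self] at hy2
          exact D.not_P_zero hχ hy2
        exact hD χ y t hχ hy1 ((hW χ).1 hW') hyt hy2
      · rfl
    · intro h
      exact absurd (Finset.mem_univ _) h
  have hS2 : ∑ χ : V →ₗ[ZMod 2] ZMod 2, (if χ ∈ W then sgn (χ g) * D.T t χ ψ else 0) = 0 := by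
    have h3 : ∀ χ : V →ₗ[ZMod 2] ZMod 2, (if χ ∈ W then sgn (χ g) * D.T t χ ψ else 0) =
        ∑ y : V, (if D.P ψ y ∧ D.P ψ (y + t) then D.wt t y *
          (if χ ∈ W then sgn (ev (g + y) χ) else 0) else 0) := by
      intro χ
      split_ifs with hW'
      · unfold T
        rw [Finset.mul_sum]
        apply Finset.sum_congr rfl
        intro y _
        split_ifs
        · have : ev (g + y) χ = χ g + χ y := map_add χ g y
          rw [this, sgn_add]; ring
        · rw [mul_zero]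
      · symm
        apply Finset.sum_eq_zero
        intro y _
        split_ifs
        · rw [mul_zero]
        · rfl
    rw [Finset.sum_congr rfl (fun χ _ => h3 χ), Finset.sum_comm]
    apply Finset.sum_eq_zero
    intro y _
    by_cases hy : D.P ψ y ∧ D.P ψ (y + t)
    · have h4 : ∑ χ : V →ₗ[ZMod 2] ZMod 2, (if χ ∈ W then sgn (ev (g + y) χ) else 0) = 0 := by
        rw [sum_sgn, if_neg]
        intro h5
        obtain ⟨f, hf1, hf2⟩ := exists_functional (hc y hy.1 hy.2)
        have h6 := h5 f hf2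
        have h7 : f (g + y) = 0 := h6
        rw [hf1] at h7
        exact one_ne_zero h7
      rw [Finset.sum_congr rfl (fun χ _ => if_pos hy), ← Finset.mul_sum, h4, mul_zero]
    · apply Finset.sum_eq_zero
      intro χ _
      rw [if_neg hy]
  have := D.T_zero_pos h1 h2
  rw [← hS1, hS2] at this
  exact lt_irrefl _ this

/-- The sets `P ψ` are invariant under their differences. -/
theorem periodic (hD : D.NoLine) {t : V} {ψ : V →ₗ[ZMod 2] ZMod 2} {x v : V}
    (h1 : D.P ψ x) (h2 : D.P ψ (x + t)) (hv : D.P ψ v) : D.P ψ (v + t) := by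
  by_cases ht : t = 0
  · rw [ht, add_zero]; exact hv
  by_contra hc
  have hc' : ∃ b, b ∈ D.ann (v + t) ∧ ψ b = 1 := by
    unfold P at hc
    push Not at hc
    obtain ⟨b, hb, hb'⟩ := hc
    exact ⟨b, hb, zm_ne_zero hb'⟩
  obtain ⟨b, hb, hψb⟩ := hc'
  obtain ⟨c, hc1, hc2, hc3⟩ := exists_mem_coset hD ht h1 h2 (b + D.e)
  set y := b + D.e + c with hy
  -- `q (c, y) = q (c, b)`
  have e1 : D.q c y = D.q c b := by
    rw [D.eq_iff, hy, show b + D.e + c + b = (b + b) + (c + D.e) by abel, ZModModule.add_self,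
      zero_add]
    exact D.self_mem c
  have e2 : D.q (c + t) y = D.q c y := by
    rw [D.eq_iff', show c + t + c = (c + c) + t by abel, ZModModule.add_self, zero_add]
    exact hc3
  have e3 : D.q (c + (v + t)) b = D.q c b := by
    rw [D.eq_iff', show c + (v + t) + c = (c + c) + (v + t) by abel, ZModModule.add_self, zero_add]
    exact hb
  obtain ⟨s, hs1, hs2⟩ := D.link (c + t) y (c + (v + t)) b (by rw [e2, e1, e3])
  have hs3 : s ∈ D.ann v := by
    have : D.q (c + t) s = D.q (c + (v + t)) s := by rw [← hs1, ← hs2, e2, e1, e3]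
    rw [D.eq_iff', show c + t + (c + (v + t)) = (c + c) + (t + t) + v by abel,
      ZModModule.add_self, ZModModule.add_self, zero_add, zero_add] at this
    exact this
  have hs4 : y + s ∈ D.ann (c + t) := (D.eq_iff).1 hs1
  have h5 : ψ s = 0 := hv s hs3
  have h6 : ψ (y + s) = 0 := hc2 _ hs4
  rw [map_add, h5, add_zero, hy, show b + D.e + c = b + (c + D.e) by abel, map_add, hψb,
    hc1 _ (D.self_mem c), add_zero] at h6
  exact one_ne_zero h6

end QData

end Pool.Agent.Helper58.PLine
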