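import Pool.Agent.Helper58.PLine.Basic

/-!
Atoms: the maximal period groups `U ψ` are independent.
-/

namespace Pool.Agent.Helper58.PLine

/-- `χ` vanishes on `M`. -/
def Perp {V : Type} [AddCommGroup V] [Module (ZMod 2) V] (M : Submodule (ZMod 2) V)
    (χ : V →ₗ[ZMod 2] ZMod 2) : Prop := ∀ u ∈ M, χ u = 0

theorem Perp.add {V : Type} [AddCommGroup V] [Module (ZMod 2) V] {M : Submodule (ZMod 2) V}
    {χ φ : V →ₗ[ZMod 2] ZMod 2} (h : Perp M χ) (h' : Perp M φ) : Perp M (χ + φ) := by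
  intro u hu
  rw [LinearMap.add_apply, h u hu, h' u hu, add_zero]

theorem Perp.mono {V : Type} [AddCommGroup V] [Module (ZMod 2) V] {M N : Submodule (ZMod 2) V}
    {χ : V →ₗ[ZMod 2] ZMod 2} (h : Perp N χ) (hM : M ≤ N) : Perp M χ :=
  fun u hu => h u (hM hu)

namespace QData

variable {V Q : Type} [AddCommGroup V] [Module (ZMod 2) V] {D : QData V Q}

/-- The periods of `P ψ`. -/
def U (D : QData V Q) (ψ : V →ₗ[ZMod 2] ZMod 2) : Submodule (ZMod 2) V where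
  carrier := {t | ∀ x, D.P ψ x → D.P ψ (x + t)}
  add_mem' := by
    intro a b ha hb x hx
    rw [← add_assoc]
    exact hb _ (ha _ hx)
  zero_mem' := by
    intro x hx
    rw [add_zero]; exact hx
  smul_mem' := by
    intro c a ha x hx
    rcases zm c with rfl | rfl
    · rw [zero_smul, add_zero]; exact hx
    · rw [one_smul]; exact ha x hx

/-- `ψ` is active: `P ψ` is not empty and `ψ ≠ 0`. -/
def Act (D : QData V Q) (ψ : V →ₗ[ZMod 2] ZMod 2) : Prop := ψ ≠ 0 ∧ ∃ x, D.P ψ x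

theorem perp_U {ψ : V →ₗ[ZMod 2] ZMod 2} (h : D.Act ψ) : Perp (D.U ψ) ψ := by
  obtain ⟨_, x, hx⟩ := h
  intro u hu
  have h1 := hx _ (D.self_mem x)
  have h2 := hu x hx _ (D.self_mem (x + u))
  have h3 : x + u + D.e = (x + D.e) + u := by abel
  rw [h3, map_add, h1, zero_add] at h2
  exact h2

theorem notMem_U {ψ : V →ₗ[ZMod 2] ZMod 2} (h0 : ψ ≠ 0) {x : V} (hx : D.P ψ x) : x ∉ D.U ψ := by
  intro h
  have := h x hx
  rw [ZModModule.add_self] at this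
  exact D.not_P_zero h0 this

section
variable [Fintype V] (hD : D.NoLine)
include hD

theorem add_mem_U {ψ : V →ₗ[ZMod 2] ZMod 2} {x y : V} (hx : D.P ψ x) (hy : D.P ψ y) :
    x + y ∈ D.U ψ := fun v hv => periodic hD hx (by rw [add_add_self]; exact hy) hv

theorem T_const {t : V} {φ ψ : V →ₗ[ZMod 2] ZMod 2} (h : Perp (D.U ψ) φ) {x : V}
    (hx : D.P ψ x) : D.T t φ ψ = sgn (φ x) * D.T t 0 ψ := by
  classical
  unfold T
  rw [Finset.mul_sum]
  apply Finset.sum_congr rfl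
  intro y _
  split_ifs with hy
  · have h1 : φ (x + y) = 0 := h _ (add_mem_U hD hx hy.1)
    rw [map_add] at h1
    have h2 : φ x = φ y := eq_of_add_eq_zero h1
    rw [h2, LinearMap.zero_apply, sgn_zero]; ring
  · rw [mul_zero]

theorem U_le {ψ χ : V →ₗ[ZMod 2] ZMod 2} (hψ : D.Act ψ) (hχ : χ ≠ 0) (h : Perp (D.U ψ) χ) :
    D.Act χ ∧ D.U ψ ≤ D.U χ := by
  obtain ⟨h0, x, hx⟩ := hψ
  have key : ∀ t ∈ D.U ψ, ∃ y, D.P χ y ∧ D.P χ (y + t) := by
    intro t ht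
    by_contra hc
    push Not at hc
    have h1 : D.T t ψ χ = 0 := D.T_eq_zero (fun y hy => hc y hy.1 hy.2)
    rw [D.T_comm, T_const hD h hx] at h1
    have h2 := D.T_zero_pos hx (ht x hx)
    rcases mul_eq_zero.1 h1 with h3 | h3
    · exact sgn_ne_zero _ h3
    · omega
  refine ⟨⟨hχ, ?_⟩, ?_⟩
  · obtain ⟨y, hy, _⟩ := key 0 (Submodule.zero_mem _)
    exact ⟨y, hy⟩
  · intro t ht
    obtain ⟨y, hy1, hy2⟩ := key t ht
    rw [← add_add_self y t]
    exact add_mem_U hD hy1 hy2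

omit hD in
/-- The maximal period groups. -/
def Atom (D : QData V Q) (M : Submodule (ZMod 2) V) : Prop :=
  Maximal (fun N => ∃ ψ, D.Act ψ ∧ D.U ψ = N) M

omit hD in
theorem exists_atom {ψ : V →ₗ[ZMod 2] ZMod 2} (h : D.Act ψ) : ∃ M, D.Atom M ∧ D.U ψ ≤ M := by
  have hfin : Finite (Submodule (ZMod 2) V) := inferInstance
  obtain ⟨M, h1, h2⟩ := (Set.toFinite {N : Submodule (ZMod 2) V | ∃ ψ, D.Act ψ ∧ D.U ψ = N})
    |>.exists_le_maximal (a := D.U ψ) ⟨ψ, h, rfl⟩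
  exact ⟨M, h2, h1⟩

theorem atom_U {M : Submodule (ZMod 2) V} (hM : D.Atom M) {χ : V →ₗ[ZMod 2] ZMod 2}
    (h0 : χ ≠ 0) (h : Perp M χ) : D.Act χ ∧ D.U χ = M := by
  obtain ⟨ψ, hψ, rfl⟩ := hM.1
  obtain ⟨h1, h2⟩ := U_le hD hψ h0 h
  exact ⟨h1, le_antisymm (hM.2 ⟨χ, h1, rfl⟩ h2) h2⟩

omit hD [Fintype V] in
theorem atom_ne_top {M : Submodule (ZMod 2) V} (hM : D.Atom M) : ∃ x, x ∉ M := by
  obtain ⟨ψ, ⟨h0, x, hx⟩, rfl⟩ := hM.1
  exact ⟨x, notMem_U h0 hx⟩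

theorem pairing {M : Submodule (ZMod 2) V} (hM : D.Atom M) {χ φ : V →ₗ[ZMod 2] ZMod 2}
    (h0 : χ ≠ 0) (h : Perp M χ) (h0' : φ ≠ 0) (h' : Perp M φ) {x w : V} (hx : D.P χ x)
    (hw : D.P φ w) : φ x = χ w := by
  obtain ⟨_, h1⟩ := atom_U hD hM h0 h
  obtain ⟨_, h2⟩ := atom_U hD hM h0' h'
  have e1 : D.T 0 φ χ = sgn (φ x) * D.T 0 0 χ := T_const hD (by rw [h1]; exact h') hx
  have e2 : D.T 0 χ φ = sgn (χ w) * D.T 0 0 φ := T_const hD (by rw [h2]; exact h) hw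
  have p1 : 0 < D.T 0 0 χ := D.T_zero_pos hx (by rw [add_zero]; exact hx)
  have p2 : 0 < D.T 0 0 φ := D.T_zero_pos hw (by rw [add_zero]; exact hw)
  rw [D.T_comm, e2] at e1
  rcases zm (φ x) with h3 | h3 <;> rcases zm (χ w) with h4 | h4 <;> rw [h3, h4] at e1 ⊢
  · simp only [sgn_zero, sgn_one] at e1; omega
  · simp only [sgn_zero, sgn_one] at e1; omega

theorem atom_unique {M : Submodule (ZMod 2) V} (hM : D.Atom M) {χ χ' : V →ₗ[ZMod 2] ZMod 2}
    (h0 : χ ≠ 0) (h : Perp M χ) (h0' : χ' ≠ 0) (h' : Perp M χ') {y : V} (hy : D.P χ y)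
    (hy' : D.P χ' y) : χ = χ' := by
  by_contra hne
  have h1 : χ + χ' ≠ 0 := fun hc => hne (eq_of_add_eq_zero hc)
  have h2 : Perp M (χ + χ') := h.add h'
  have h3 : D.P (χ + χ') y := P.add D hy hy'
  have h4 : y ∈ M := by
    by_contra hyM
    obtain ⟨φ, hφ1, hφ2⟩ := exists_functional hyM
    have hφ0 : φ ≠ 0 := by rintro rfl; simp at hφ1
    obtain ⟨⟨_, w, hw⟩, _⟩ := atom_U hD hM hφ0 hφ2
    have e1 := pairing hD hM h0 h hφ0 hφ2 hy hw
    have e2 := pairing hD hM h0' h' hφ0 hφ2 hy' hw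
    have e3 := pairing hD hM h1 h2 hφ0 hφ2 h3 hw
    rw [LinearMap.add_apply, ← e1, ← e2, hφ1] at e3
    exact absurd e3 (by decide)
  obtain ⟨_, h5⟩ := atom_U hD hM h0 h
  exact notMem_U h0 hy (h5 ▸ h4)

theorem atom_exists {M : Submodule (ZMod 2) V} (hM : D.Atom M) {y : V} (hy : y ∉ M) :
    ∃ χ : V →ₗ[ZMod 2] ZMod 2, χ ≠ 0 ∧ Perp M χ ∧ D.P χ y := by
  classical
  have hE : ∀ χ : M.dualAnnihilator, Perp M χ.1 := fun χ u hu =>
    (Submodule.mem_dualAnnihilator _).1 χ.2 u hu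
  have hx : ∀ χ : M.dualAnnihilator, χ.1 ≠ 0 → ∃ x, D.P χ.1 x := fun χ h0 =>
    (atom_U hD hM h0 (hE χ)).1.2
  let F : M.dualAnnihilator → V ⧸ M := fun χ =>
    if h0 : χ.1 = 0 then 0 else Submodule.Quotient.mk (hx χ h0).choose
  have hF0 : ∀ χ (h0 : χ.1 ≠ 0), F χ = Submodule.Quotient.mk (hx χ h0).choose := fun χ h0 =>
    dif_neg h0
  have hFne : ∀ χ : M.dualAnnihilator, χ.1 ≠ 0 → F χ ≠ 0 := by
    intro χ h0 hc
    rw [hF0 χ h0, Submodule.Quotient.mk_eq_zero] at hc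
    refine notMem_U h0 (hx χ h0).choose_spec ?_
    rw [(atom_U hD hM h0 (hE χ)).2]
    exact hc
  have hFz : ∀ χ : M.dualAnnihilator, χ.1 = 0 → F χ = 0 := fun χ h0 => dif_pos h0
  have hinj : Function.Injective F := by
    intro χ χ' h
    by_cases h0 : χ.1 = 0
    · by_cases h0' : χ'.1 = 0
      · exact Subtype.ext (by rw [h0, h0'])
      · exact absurd (h.symm.trans (hFz χ h0)) (hFne χ' h0')
    · by_cases h0' : χ'.1 = 0
      · exact absurd (h.trans (hFz χ' h0')) (hFne χ h0)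
      · rw [hF0 χ h0, hF0 χ' h0', Submodule.Quotient.eq, ZModModule.sub_eq_add] at h
        have h1 : D.P χ.1 ((hx χ' h0').choose) := by
          have h2 := (atom_U hD hM h0 (hE χ)).2
          have h3 : (hx χ h0).choose + (hx χ' h0').choose ∈ D.U χ.1 := by rw [h2]; exact h
          have h4 := h3 _ (hx χ h0).choose_spec
          rwa [add_add_self] at h4
        exact Subtype.ext (atom_unique hD hM h0 (hE χ) h0' (hE χ') h1 (hx χ' h0').choose_spec)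
  have hfin : Finite (V →ₗ[ZMod 2] ZMod 2) :=
    Finite.of_injective (fun f : V →ₗ[ZMod 2] ZMod 2 => (f : V → ZMod 2)) DFunLike.coe_injective
  have hfin' : Finite M.dualAnnihilator := inferInstance
  have hfin'' : Finite (V ⧸ M) := inferInstance
  have hcard : Nat.card M.dualAnnihilator = Nat.card (V ⧸ M) := by
    rw [Nat.card_congr (Submodule.dualQuotEquivDualAnnihilator M).symm.toEquiv,
      Module.natCard_eq_pow_finrank (K := ZMod 2), Module.natCard_eq_pow_finrank (K := ZMod 2)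
        (V := V ⧸ M), Subspace.dual_finrank_eq]
  have hsurj : Function.Surjective F :=
    ((Nat.bijective_iff_injective_and_card F).2 ⟨hinj, hcard⟩).2
  obtain ⟨χ, hχ⟩ := hsurj (Submodule.Quotient.mk y)
  have h0 : χ.1 ≠ 0 := by
    intro h0
    rw [hFz χ h0] at hχ
    exact hy ((Submodule.Quotient.mk_eq_zero M).1 hχ.symm)
  refine ⟨χ.1, h0, hE χ, ?_⟩
  rw [hF0 χ h0, Submodule.Quotient.eq, ZModModule.sub_eq_add] at hχ
  have h2 := (atom_U hD hM h0 (hE χ)).2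
  have h3 : (hx χ h0).choose + y ∈ D.U χ.1 := by rw [h2]; exact hχ
  have h4 := h3 _ (hx χ h0).choose_spec
  rwa [add_add_self] at h4

theorem atom_disj {M N : Submodule (ZMod 2) V} (hM : D.Atom M) (hN : D.Atom N) (hne : M ≠ N)
    {χ : V →ₗ[ZMod 2] ZMod 2} (h : Perp M χ) (h' : Perp N χ) : χ = 0 := by
  by_contra h0
  exact hne ((atom_U hD hM h0 h).2.symm.trans (atom_U hD hN h0 h').2)

theorem exists_pair {M N : Submodule (ZMod 2) V} (hM : D.Atom M) (hN : D.Atom N) (hne : M ≠ N)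
    {a b : V →ₗ[ZMod 2] ZMod 2} (ha0 : a ≠ 0) (ha : Perp M a) (hb0 : b ≠ 0) (hb : Perp N b) :
    ∃ x, D.P a x ∧ D.P b x := by
  obtain ⟨⟨_, x, hx⟩, hU⟩ := atom_U hD hM ha0 ha
  obtain ⟨⟨_, y, hy⟩, hU'⟩ := atom_U hD hN hb0 hb
  have htop : x + y ∈ M ⊔ N := by
    by_contra hc
    obtain ⟨f, hf1, hf2⟩ := exists_functional hc
    have : f = 0 := atom_disj hD hM hN hne (fun u hu => hf2 u (Submodule.mem_sup_left hu))
      (fun u hu => hf2 u (Submodule.mem_sup_right hu))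
    rw [this] at hf1
    simp at hf1
  obtain ⟨m, hm, n, hn, hmn⟩ := Submodule.mem_sup.1 htop
  refine ⟨x + m, (hU ▸ hm : m ∈ D.U a) x hx, ?_⟩
  have h1 : x + m = y + n := by
    have h2 : (x + m) + (y + n) = (x + y) + (m + n) := by abel
    rw [hmn, ZModModule.add_self] at h2
    exact eq_of_add_eq_zero h2
  rw [h1]
  exact (hU' ▸ hn : n ∈ D.U b) y hy

theorem inf_le {M N : Submodule (ZMod 2) V} (hM : D.Atom M) (hN : D.Atom N) (hne : M ≠ N)
    {a b : V →ₗ[ZMod 2] ZMod 2} (ha0 : a ≠ 0) (ha : Perp M a) (hb0 : b ≠ 0) (hb : Perp N b) :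
    D.Act (a + b) ∧ M ⊓ N ≤ D.U (a + b) := by
  obtain ⟨x, hxa, hxb⟩ := exists_pair hD hM hN hne ha0 ha hb0 hb
  have hU := (atom_U hD hM ha0 ha).2
  have hU' := (atom_U hD hN hb0 hb).2
  refine ⟨⟨?_, x, P.add D hxa hxb⟩, ?_⟩
  · intro h
    have h1 : a = b := eq_of_add_eq_zero h
    exact ha0 (atom_disj hD hM hN hne ha (h1 ▸ hb))
  · rintro t ⟨ht1, ht2⟩
    have h1 : D.P a (x + t) := (hU ▸ ht1 : t ∈ D.U a) x hxa
    have h2 : D.P b (x + t) := (hU' ▸ ht2 : t ∈ D.U b) x hxb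
    rw [← add_add_self x t]
    exact add_mem_U hD (P.add D hxa hxb) (P.add D h1 h2)

omit hD [Fintype V] in
theorem perp_inf {M N : Submodule (ZMod 2) V} {ψ : V →ₗ[ZMod 2] ZMod 2} (h : Perp (M ⊓ N) ψ) :
    ∃ a b, Perp M a ∧ Perp N b ∧ a + b = ψ := by
  have h1 : ψ ∈ (M ⊓ N).dualAnnihilator := (Submodule.mem_dualAnnihilator _).2 h
  rw [Subspace.dualAnnihilator_inf_eq] at h1
  obtain ⟨a, ha, b, hb, hab⟩ := Submodule.mem_sup.1 h1
  exact ⟨a, b, (Submodule.mem_dualAnnihilator _).1 ha, (Submodule.mem_dualAnnihilator _).1 hb, hab⟩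

end

end QData

end Pool.Agent.Helper58.PLine
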