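import Pool.Agent.Lib_MP_d26ff6_al.Defs

/-!
Quaternionic structures whose value groups satisfy `V_x V_y V_{xy} = G`.
-/

namespace QS

/-- For all `x, y` in `G`, the three value groups `V_x = {u : q (x, u) = 0}`, `V_y` and `V_{xy}`
together generate `G`: every `g` is `u v w` with `q (x, u) = q (y, v) = q (x y, w) = 0`.
(If `x = 1`, `y = 1` or `x = y` this holds automatically, since `V_1 = G`.) -/
def ThreeGroups (S : QStruct) : Prop :=
  ∀ x y g : S.G, ∃ u v w, S.q x u = S.zero ∧ S.q y v = S.zero ∧ S.q (x * y) w = S.zero ∧
    u * v * w = g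

/-- Structures built by direct products and isomorphisms from finite structures with `q ≡ 0` and
finite nondegenerate structures with exactly two quaternions. -/
inductive ProdType : QStruct → Prop
  | deg (S : QStruct) (hf : Finite S.G) (h : ∀ a b, S.q a b = S.zero) : ProdType S
  | nondeg (S : QStruct) (hf : Finite S.G) (h1 : ∀ a, (∀ b, S.q a b = S.zero) → a = 1)
      (h2 : Nat.card S.Q = 2) : ProdType S
  | prod (S T : QStruct) (h1 : ProdType S) (h2 : ProdType T) : ProdType (QS.prod S T)
  | iso (S T : QStruct) (h1 : Iso S T) (h2 : ProdType S) : ProdType T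

end QS
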