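import Pool.Agent.Helper58.PLine.Triple

/-!
The annihilators of the atoms are independent; a point outside all atoms is a common slot.
-/

namespace Pool.Agent.Helper58.PLine

section lin
variable {V : Type} [AddCommGroup V] [Module (ZMod 2) V]

/-- The annihilators of the subspaces `M ∈ s` are independent. -/
def Indep (s : Finset (Submodule (ZMod 2) V)) : Prop :=
  ∀ φ : Submodule (ZMod 2) V → (V →ₗ[ZMod 2] ZMod 2), (∀ M ∈ s, Perp M (φ M)) →
    ∑ M ∈ s, φ M = 0 → ∀ M ∈ s, φ M = 0

theorem Indep.mono {s t : Finset (Submodule (ZMod 2) V)} (h : Indep t) (hst : s ⊆ t) :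
    Indep s := by
  classical
  intro φ h1 h2 M hM
  have h3 := h (fun N => if N ∈ s then φ N else 0) (by
    intro N _
    by_cases hN : N ∈ s
    · simp only [if_pos hN]; exact h1 N hN
    · simp only [if_neg hN]; exact fun _ _ => rfl) (by
    rw [← Finset.sum_subset hst (fun N _ hN => if_neg hN)]
    rw [← h2]
    exact Finset.sum_congr rfl (fun N hN => if_pos hN)) M (hst hM)
  simpa only [if_pos hM] using h3

theorem perp_finset_inf (s : Finset (Submodule (ZMod 2) V)) :
    ∀ ψ : V →ₗ[ZMod 2] ZMod 2, Perp (s.inf id) ψ →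
      ∃ φ : Submodule (ZMod 2) V → (V →ₗ[ZMod 2] ZMod 2), (∀ M ∈ s, Perp M (φ M)) ∧
        ∑ M ∈ s, φ M = ψ := by
  classical
  induction s using Finset.induction_on with
  | empty =>
    intro ψ hψ
    refine ⟨fun _ => 0, by simp, ?_⟩
    rw [Finset.sum_empty]
    ext v
    exact (hψ v (by simp)).symm
  | insert M s hM ih =>
    intro ψ hψ
    rw [Finset.inf_insert] at hψ
    obtain ⟨a, b, ha, hb, hab⟩ := QData.perp_inf (M := M) (N := s.inf id) hψ
    obtain ⟨φ, h1, h2⟩ := ih b hb
    refine ⟨fun N => if N = M then a else φ N, ?_, ?_⟩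
    · intro N hN
      by_cases h : N = M
      · simp only [if_pos h]; rw [h]; exact ha
      · simp only [if_neg h]
        exact h1 N ((Finset.mem_insert.1 hN).resolve_left h)
    · rw [Finset.sum_insert hM, if_pos rfl, ← hab, ← h2]
      congr 1
      apply Finset.sum_congr rfl
      intro N hN
      rw [if_neg]
      rintro rfl
      exact hM hN

/-- The Chinese remainder theorem. -/
theorem crt (s : Finset (Submodule (ZMod 2) V)) :
    Indep s → ∀ x : Submodule (ZMod 2) V → V, ∃ y, ∀ M ∈ s, y + x M ∈ M := by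
  classical
  induction s using Finset.induction_on with
  | empty => intro _ _; exact ⟨0, by simp⟩
  | insert M s hM ih =>
    intro h x
    obtain ⟨y, hy⟩ := ih (h.mono (Finset.subset_insert M s)) x
    have htop : y + x M ∈ M ⊔ s.inf id := by
      by_contra hc
      obtain ⟨f, hf1, hf2⟩ := exists_functional hc
      obtain ⟨φ, h1, h2⟩ := perp_finset_inf s f
        (fun u hu => hf2 u (Submodule.mem_sup_right hu))
      have h3 := h (fun N => if N = M then f else φ N) (by
        intro N hN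
        by_cases h : N = M
        · simp only [if_pos h]; rw [h]
          exact fun u hu => hf2 u (Submodule.mem_sup_left hu)
        · simp only [if_neg h]
          exact h1 N ((Finset.mem_insert.1 hN).resolve_left h)) (by
        rw [Finset.sum_insert hM, if_pos rfl]
        have h4 : ∑ N ∈ s, (if N = M then f else φ N) = ∑ N ∈ s, φ N := by
          apply Finset.sum_congr rfl
          intro N hN
          rw [if_neg]
          rintro rfl
          exact hM hN
        rw [h4, h2]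
        ext v
        rw [LinearMap.add_apply, LinearMap.zero_apply]
        exact ZModModule.add_self _) M (Finset.mem_insert_self M s)
      simp only [if_true] at h3
      rw [h3] at hf1
      simp at hf1
    obtain ⟨m, hm, n, hn, hmn⟩ := Submodule.mem_sup.1 htop
    refine ⟨y + n, ?_⟩
    intro N hN
    rcases Finset.mem_insert.1 hN with rfl | hN
    · rw [show y + n + x N = (y + x N) + n by abel, ← hmn, add_self_add]
      exact hm
    · rw [show y + n + x N = (y + x N) + n by abel]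
      have hle : s.inf id ≤ N := Finset.inf_le (f := id) hN
      exact N.add_mem (hy N hN) (hle hn)

end lin

namespace QData

variable {V Q : Type} [AddCommGroup V] [Module (ZMod 2) V] {D : QData V Q}
variable [Fintype V] (hD : D.NoLine)
include hD

/-- an atom above `M₁ ⊓ M₂` is `M₁` or `M₂` -/
theorem atom_of_inf_le {M₁ M₂ M : Submodule (ZMod 2) V} (h₁ : D.Atom M₁) (h₂ : D.Atom M₂)
    (hM : D.Atom M) (n₁₂ : M₁ ≠ M₂) (hle : M₁ ⊓ M₂ ≤ M) : M = M₁ ∨ M = M₂ := by
  by_contra hc
  push Not at hc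
  obtain ⟨x, hx⟩ := atom_ne_top hM
  obtain ⟨χ, hχ1, hχ2⟩ := exists_functional hx
  have hχ0 : χ ≠ 0 := by rintro rfl; simp at hχ1
  obtain ⟨b₁, b₂, p₁, p₂, hb⟩ := perp_inf (M := M₁) (N := M₂) (ψ := χ) (Perp.mono hχ2 hle)
  by_cases hb₁ : b₁ = 0
  · rw [hb₁, zero_add] at hb
    exact hχ0 (atom_disj hD hM h₂ hc.2 hχ2 (hb ▸ p₂))
  by_cases hb₂ : b₂ = 0
  · rw [hb₂, add_zero] at hb
    exact hχ0 (atom_disj hD hM h₁ hc.1 hχ2 (hb ▸ p₁))
  exact no_triple hD h₁ h₂ hM n₁₂ (fun h => hc.1 h.symm) (fun h => hc.2 h.symm) hb₁ hb₂ hχ0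
    p₁ p₂ hχ2 hb

omit hD [Fintype V] in
theorem P_sum {s : Finset (Submodule (ZMod 2) V)}
    {φ : Submodule (ZMod 2) V → (V →ₗ[ZMod 2] ZMod 2)} {y : V} (h : ∀ M ∈ s, D.P (φ M) y) :
    D.P (∑ M ∈ s, φ M) y := by
  intro v hv
  rw [LinearMap.sum_apply]
  exact Finset.sum_eq_zero (fun M hM => h M hM v hv)

/-- the case of at least four atoms -/
theorem indep_step {s : Finset (Submodule (ZMod 2) V)} (hs : ∀ M ∈ s, D.Atom M)
    (ih : ∀ t : Finset (Submodule (ZMod 2) V), t.card < s.card → (∀ M ∈ t, D.Atom M) → Indep t)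
    {φ : Submodule (ZMod 2) V → (V →ₗ[ZMod 2] ZMod 2)} (hφ : ∀ M ∈ s, Perp M (φ M))
    (h0 : ∀ M ∈ s, φ M ≠ 0) {M₁ M₂ : Submodule (ZMod 2) V}
    (h₁ : M₁ ∈ s) (h₂ : M₂ ∈ s) (n₁₂ : M₁ ≠ M₂)
    (hsum : ∑ M ∈ s, φ M = 0) (hle : D.U (φ M₁ + φ M₂) ≤ M₁) : False := by
  classical
  obtain ⟨s', hs'⟩ : ∃ s', s' = (s.erase M₁).erase M₂ := ⟨_, rfl⟩
  have hcard1 : (s.erase M₁).card + 1 = s.card := Finset.card_erase_add_one h₁
  have h₂' : M₂ ∈ s.erase M₁ := Finset.mem_erase.2 ⟨n₁₂.symm, h₂⟩
  have hcard2 : s'.card + 1 = (s.erase M₁).card := by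
    rw [hs']; exact Finset.card_erase_add_one h₂'
  have hsub : ∀ M ∈ s', M ∈ s := by
    intro M hM
    rw [hs'] at hM
    exact Finset.mem_of_mem_erase (Finset.mem_of_mem_erase hM)
  have hM₁ : M₁ ∉ s' := by
    rw [hs']
    intro h
    exact Finset.notMem_erase M₁ s (Finset.mem_of_mem_erase h)
  have hξ : ∑ M ∈ s', φ M = φ M₁ + φ M₂ := by
    have e1 := Finset.add_sum_erase s φ h₁
    have e2 := Finset.add_sum_erase (s.erase M₁) φ h₂'
    rw [← e2, hsum, ← add_assoc] at e1
    rw [hs']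
    ext v
    have e3 := congrArg (fun f : V →ₗ[ZMod 2] ZMod 2 => f v) e1
    simp only [LinearMap.add_apply, LinearMap.zero_apply] at e3 ⊢
    exact (eq_of_add_eq_zero e3).symm
  -- a point in all `P (φ M)`
  have hx : ∀ M, ∃ x, M ∈ s → D.P (φ M) x := by
    intro M
    by_cases hM : M ∈ s
    · obtain ⟨⟨_, x, hx⟩, _⟩ := atom_U hD (hs M hM) (h0 M hM) (hφ M hM)
      exact ⟨x, fun _ => hx⟩
    · exact ⟨0, fun h => absurd h hM⟩
  choose x hx using hx
  obtain ⟨y, hy⟩ := crt s' (ih s' (by omega) (fun M hM => hs M (hsub M hM))) x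
  have hPy : ∀ M ∈ s', D.P (φ M) y := by
    intro M hM
    have hMs := hsub M hM
    have e1 : y + x M ∈ D.U (φ M) := by
      rw [(atom_U hD (hs M hMs) (h0 M hMs) (hφ M hMs)).2]
      exact hy M hM
    have e2 := e1 (x M) (hx M hMs)
    rwa [show x M + (y + x M) = y + (x M + x M) by abel, ZModModule.add_self, add_zero] at e2
  obtain ⟨x₁, hx₁⟩ := atom_ne_top (hs M₁ h₁)
  obtain ⟨u, hu⟩ := crt (insert M₁ s') (ih (insert M₁ s')
    (by rw [Finset.card_insert_of_notMem hM₁]; omega) (by
      intro M hM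
      rcases Finset.mem_insert.1 hM with rfl | hM
      · exact hs _ h₁
      · exact hs _ (hsub _ hM))) (fun M => if M = M₁ then x₁ else 0)
  have hu1 : u ∉ M₁ := by
    intro hc
    have e1 := hu M₁ (Finset.mem_insert_self _ _)
    rw [if_pos rfl] at e1
    have e2 := M₁.add_mem hc e1
    rw [add_add_self] at e2
    exact hx₁ e2
  have hu2 : ∀ M ∈ s', u ∈ M := by
    intro M hM
    have e1 := hu M (Finset.mem_insert_of_mem hM)
    rw [if_neg (by rintro rfl; exact hM₁ hM), add_zero] at e1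
    exact e1
  have hPyu : ∀ M ∈ s', D.P (φ M) (y + u) := by
    intro M hM
    have hMs := hsub M hM
    have e1 : u ∈ D.U (φ M) := by
      rw [(atom_U hD (hs M hMs) (h0 M hMs) (hφ M hMs)).2]
      exact hu2 M hM
    exact e1 y (hPy M hM)
  have e1 := P_sum hPy
  have e2 := P_sum hPyu
  rw [hξ] at e1 e2
  have e3 := add_mem_U hD e1 e2
  rw [add_add_self] at e3
  exact hu1 (hle e3)

theorem indep_atoms (n : ℕ) : ∀ s : Finset (Submodule (ZMod 2) V), s.card = n →
    (∀ M ∈ s, D.Atom M) → Indep s := by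
  classical
  induction n using Nat.strong_induction_on with
  | _ n ih =>
    intro s hn hs φ hφ hsum
    by_contra hc
    push Not at hc
    obtain ⟨N, hN, hN0⟩ := hc
    -- all `φ M` are non zero
    have hall : ∀ M ∈ s, φ M ≠ 0 := by
      by_contra hc2
      push Not at hc2
      obtain ⟨K, hK, hK0⟩ := hc2
      have e1 : ∑ M ∈ s.erase K, φ M = 0 := by
        have := Finset.add_sum_erase s φ hK
        rw [hK0, zero_add] at this
        rw [this, hsum]
      have e2 := Finset.card_erase_add_one hK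
      exact hN0 (ih _ (by omega) (s.erase K) rfl (fun M hM => hs M (Finset.mem_of_mem_erase hM))
        φ (fun M hM => hφ M (Finset.mem_of_mem_erase hM)) e1 N
        (Finset.mem_erase.2 ⟨fun h => hN0 (h ▸ hK0), hN⟩))
    -- a second atom
    obtain ⟨N₂, hN₂, hne⟩ : ∃ N₂ ∈ s, N₂ ≠ N := by
      by_contra hc2
      push Not at hc2
      have e1 : s = {N} := by
        ext M
        rw [Finset.mem_singleton]
        exact ⟨fun h => hc2 M h, fun h => h ▸ hN⟩
      rw [e1, Finset.sum_singleton] at hsum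
      exact hN0 hsum
    have hN0' := hall N₂ hN₂
    obtain ⟨hact, hinf⟩ := inf_le hD (hs N hN) (hs N₂ hN₂) hne.symm hN0 (hφ N hN) hN0' (hφ N₂ hN₂)
    obtain ⟨M, hM, hMle⟩ := exists_atom hact
    have ih' : ∀ t : Finset (Submodule (ZMod 2) V), t.card < s.card → (∀ M ∈ t, D.Atom M) →
        Indep t := fun t ht h => ih t.card (by omega) t rfl h
    rcases atom_of_inf_le hD (hs N hN) (hs N₂ hN₂) hM hne.symm (hinf.trans hMle) with rfl | rfl
    · exact indep_step hD hs ih' hφ hall hN hN₂ hne.symm hsum hMle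
    · rw [add_comm] at hMle
      exact indep_step hD hs ih' hφ hall hN₂ hN hne hsum hMle

/-- If no line lies in a `P ψ` then there is a common slot. -/
theorem exists_slot : ∃ p : V, ∀ x s : V, D.Rel p x s := by
  classical
  have hfinS : Finite (Submodule (ZMod 2) V) := inferInstance
  have : Fintype (Submodule (ZMod 2) V) := Fintype.ofFinite _
  let A : Finset (Submodule (ZMod 2) V) := Finset.univ.filter (fun M => D.Atom M)
  have hA : ∀ M, M ∈ A ↔ D.Atom M := fun M => by simp [A]
  have hx : ∀ M : Submodule (ZMod 2) V, ∃ x, D.Atom M → x ∉ M := by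
    intro M
    by_cases hM : D.Atom M
    · obtain ⟨x, hx⟩ := atom_ne_top hM
      exact ⟨x, fun _ => hx⟩
    · exact ⟨0, fun h => absurd h hM⟩
  choose x hx using hx
  obtain ⟨p, hp⟩ := crt A (indep_atoms hD _ A rfl (fun M hM => (hA M).1 hM)) x
  have hpM : ∀ M, D.Atom M → p ∉ M := by
    intro M hM hc
    have e1 := M.add_mem hc (hp M ((hA M).2 hM))
    rw [add_add_self] at e1
    exact hx M hM e1
  refine ⟨p, fun y s => ?_⟩
  rw [D.rel_iff]
  by_contra hc
  obtain ⟨f, hf1, hf2⟩ := exists_functional hc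
  have hf0 : f ≠ 0 := by rintro rfl; simp at hf1
  obtain ⟨h1, h2⟩ := (D.perp_iff).1 hf2
  obtain ⟨M, hM, hMle⟩ := exists_atom (D := D) (ψ := f) ⟨hf0, y, h1⟩
  have e1 := add_mem_U hD h1 h2
  rw [add_add_self] at e1
  exact hpM M hM (hMle e1)

end QData

end Pool.Agent.Helper58.PLine
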