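import Pool.Agent.Lib_MP_d26ff6_al.Main
import Pool.Agent.Helper58.PLine.Defs
import Pool.Agent.Helper58.PLine.Indep

/-!
The main theorem on quaternionic structures with `V_x V_y V_{xy} = G`.
-/

namespace QS

open Pool.Agent.Helper58.PLine

/-- The quaternionic data of a quaternionic structure. -/
noncomputable def toData (S : QStruct) : QData (Additive S.G) S.Q where
  q := fun x y => S.q (Additive.toMul x) (Additive.toMul y)
  z := S.zero
  e := Additive.ofMul S.neg
  symm := fun x y => S.qs2 _ _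
  add := fun x y w => S.qs3 _ _ _
  diag := by
    intro x
    have := S.qs1 (Additive.toMul x)
    rwa [mul_comm] at this
  link := by
    intro a b c d h
    obtain ⟨x, h1, h2⟩ := S.qs4 _ _ _ _ h
    exact ⟨Additive.ofMul x, h1, h2⟩

theorem ThreeGroups.noLine {S : QStruct} (h : ThreeGroups S) : (toData S).NoLine := by
  intro ψ x y hψ hx hy _ hxy
  apply hψ
  ext g
  obtain ⟨u, v, w, h1, h2, h3, h4⟩ :=
    h (Additive.toMul x) (Additive.toMul y) (Additive.toMul g)
  have e1 : ψ (Additive.ofMul u) = 0 := hx _ h1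
  have e2 : ψ (Additive.ofMul v) = 0 := hy _ h2
  have e3 : ψ (Additive.ofMul w) = 0 := hxy _ h3
  have e4 : g = Additive.ofMul u + Additive.ofMul v + Additive.ofMul w := by
    rw [← ofMul_mul, ← ofMul_mul, h4]; rfl
  rw [e4, map_add, map_add, e1, e2, e3, add_zero, add_zero, LinearMap.zero_apply]

/-- The heart of the matter: a common slot exists. -/
theorem ThreeGroups.exists_slot {S : QStruct} [Finite S.G] (h : ThreeGroups S) :
    ∃ a, CommonSlot S a := by
  have h1 : Finite (Additive S.G) := (inferInstance : Finite S.G)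
  have : Fintype (Additive S.G) := Fintype.ofFinite _
  obtain ⟨p, hp⟩ := QData.exists_slot h.noLine
  refine ⟨Additive.toMul p, fun β => ?_⟩
  obtain ⟨a, b, rfl⟩ := S.surj β
  obtain ⟨w, hw⟩ := hp (Additive.ofMul a) (Additive.ofMul b)
  exact ⟨Additive.toMul w, hw.symm⟩

/-! ### The class of structures satisfying the hypothesis -/

theorem Iso.symm {S T : QStruct} (h : Iso S T) : Iso T S := by
  obtain ⟨φ, h1, h2⟩ := h
  refine ⟨φ.symm, ?_, ?_⟩
  · rw [← h1, MulEquiv.symm_apply_apply]
  · intro a b c d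
    have := h2 (φ.symm a) (φ.symm b) (φ.symm c) (φ.symm d)
    simpa using this.symm

theorem ThreeGroups.iso {S T : QStruct} (h : Iso S T) (hS : ThreeGroups S) : ThreeGroups T := by
  obtain ⟨φ, h1, h2⟩ := h
  have h3 : ∀ a b, S.q a b = S.zero → T.q (φ a) (φ b) = T.zero := by
    intro a b hab
    have := (h2 a b 1 1).1 (by rw [hab, S.q_one])
    rwa [map_one, T.q_one] at this
  intro x y g
  obtain ⟨u, v, w, e1, e2, e3, e4⟩ := hS (φ.symm x) (φ.symm y) (φ.symm g)
  refine ⟨φ u, φ v, φ w, ?_, ?_, ?_, ?_⟩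
  · simpa using h3 _ _ e1
  · simpa using h3 _ _ e2
  · simpa using h3 _ _ e3
  · rw [← map_mul, ← map_mul, e4, MulEquiv.apply_symm_apply]

theorem ThreeGroups.prod {S T : QStruct} (hS : ThreeGroups S) (hT : ThreeGroups T) :
    ThreeGroups (QS.prod S T) := by
  rintro ⟨x, x'⟩ ⟨y, y'⟩ ⟨g, g'⟩
  obtain ⟨u, v, w, e1, e2, e3, e4⟩ := hS x y g
  obtain ⟨u', v', w', f1, f2, f3, f4⟩ := hT x' y' g'
  exact ⟨(u, u'), (v, v'), (w, w'), Prod.ext e1 f1, Prod.ext e2 f2, Prod.ext e3 f3,
    Prod.ext e4 f4⟩

theorem ThreeGroups.fst {S T : QStruct} (h : ThreeGroups (QS.prod S T)) : ThreeGroups S := by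
  intro x y g
  obtain ⟨u, v, w, e1, e2, e3, e4⟩ := h (x, 1) (y, 1) (g, 1)
  exact ⟨u.1, v.1, w.1, congrArg Prod.fst e1, congrArg Prod.fst e2, congrArg Prod.fst e3,
    congrArg Prod.fst e4⟩

theorem ThreeGroups.snd {S T : QStruct} (h : ThreeGroups (QS.prod S T)) : ThreeGroups T := by
  intro x y g
  obtain ⟨u, v, w, e1, e2, e3, e4⟩ := h (1, x) (1, y) (1, g)
  exact ⟨u.2, v.2, w.2, congrArg Prod.snd e1, congrArg Prod.snd e2, congrArg Prod.snd e3,
    congrArg Prod.snd e4⟩

theorem threeGroups_deg {S : QStruct} (h : ∀ a b, S.q a b = S.zero) : ThreeGroups S := by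
  intro x y g
  exact ⟨g, 1, 1, h _ _, h _ _, h _ _, by rw [mul_one, mul_one]⟩

/-- In a structure with two quaternions two nonzero quaternions are equal. -/
theorem eq_of_card_two {S : QStruct} (h2 : Nat.card S.Q = 2) {α β : S.Q} (hα : α ≠ S.zero)
    (hβ : β ≠ S.zero) : α = β := by
  obtain ⟨x, y, hxy, huniv⟩ := Nat.card_eq_two_iff.1 h2
  have m : ∀ t : S.Q, t = x ∨ t = y := by
    intro t
    have : t ∈ ({x, y} : Set S.Q) := by rw [huniv]; trivial
    simpa using this
  rcases m α with h3 | h3 <;> rcases m β with h4 | h4 <;> rcases m S.zero with h5 | h5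
  all_goals first
    | exact h3.trans h4.symm
    | exact absurd (h3.trans h5.symm) hα
    | exact absurd (h4.trans h5.symm) hβ

theorem threeGroups_nondeg {S : QStruct} (h1 : ∀ a, (∀ b, S.q a b = S.zero) → a = 1)
    (h2 : Nat.card S.Q = 2) : ThreeGroups S := by
  intro x y g
  by_cases hx : S.q x g = S.zero
  · exact ⟨g, 1, 1, hx, S.q_one _, S.q_one _, by rw [mul_one, mul_one]⟩
  by_cases hy : S.q y g = S.zero
  · exact ⟨1, g, 1, S.q_one _, hy, S.q_one _, by rw [mul_one, one_mul]⟩
  by_cases hxy : x = y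
  · refine ⟨1, 1, g, S.q_one _, S.q_one _, ?_, by rw [one_mul, one_mul]⟩
    rw [hxy, S.exp_two, S.qs2, S.q_one]
  -- some `v` with `q (x y, v) ≠ 0`
  obtain ⟨v, hv⟩ : ∃ v, S.q (x * y) v ≠ S.zero := by
    by_contra hc
    push Not at hc
    exact hxy ((eq_iff_mul S x y).2 (h1 _ hc))
  have hv' : S.q x v ≠ S.q y v := by
    intro h
    apply hv
    rw [S.qs2, ← S.qs3, S.qs2 v x, S.qs2 v y, h]
  by_cases hxv : S.q x v = S.zero
  · -- `v ∈ V_x`, `v g ∈ V_y`
    have hyv : S.q y v ≠ S.zero := fun h => hv' (by rw [hxv, h])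
    refine ⟨v, v * g, 1, hxv, ?_, S.q_one _, ?_⟩
    · rw [← S.qs3]; exact eq_of_card_two h2 hyv hy
    · rw [mul_one, ← mul_assoc, S.exp_two, one_mul]
  · have hyv : S.q y v = S.zero := by
      by_contra hc
      exact hv' (eq_of_card_two h2 hxv hc)
    refine ⟨v * g, v, 1, ?_, hyv, S.q_one _, ?_⟩
    · rw [← S.qs3]; exact eq_of_card_two h2 hxv hx
    · rw [mul_one, mul_comm v g, mul_assoc, S.exp_two, mul_one]

theorem ProdType.threeGroups {S : QStruct} (h : ProdType S) : ThreeGroups S := by
  induction h with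
  | deg S _ h => exact threeGroups_deg h
  | nondeg S _ h1 h2 => exact threeGroups_nondeg h1 h2
  | prod S T _ _ h1 h2 => exact h1.prod h2
  | iso S T h _ h2 => exact h2.iso h

theorem ProdType.finite {S : QStruct} (h : ProdType S) : Finite S.G := by
  induction h with
  | deg S hf _ => exact hf
  | nondeg S hf _ _ => exact hf
  | prod S T _ _ h1 h2 => exact (inferInstance : Finite (S.G × T.G))
  | iso S T h _ h2 =>
    obtain ⟨φ, _⟩ := h
    exact Finite.of_equiv _ φ.toEquiv

theorem ext_small {D : QStruct} (h : ThreeGroups (ext D)) (a b : D.G) :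
    a = 1 ∨ b = 1 ∨ a = b := by
  by_contra hc
  push Not at hc
  obtain ⟨ha, hb, hab⟩ := hc
  have key : ∀ (c : D.G) (u : D.G × Multiplicative (ZMod 2)), c ≠ 1 →
      (ext D).q (c, 1) u = (ext D).zero → u.2 = 1 := by
    rintro c ⟨d, δ⟩ hc h1
    rcases two_cases δ with rfl | rfl
    · rfl
    · exfalso
      have h2 : extMap D (c, 1) (d, Multiplicative.ofAdd 1) = (D.zero, 1) :=
        congrArg Subtype.val h1
      rw [extMap_one_x] at h2
      exact hc (congrArg Prod.snd h2)
  obtain ⟨u, v, w, e1, e2, e3, e4⟩ := h (a, 1) (b, 1) (1, Multiplicative.ofAdd 1)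
  have f1 := key a u ha e1
  have f2 := key b v hb e2
  have f3 := key (a * b) w (fun h => hab ((eq_iff_mul D a b).2 h)) e3
  have f4 : u.2 * v.2 * w.2 = Multiplicative.ofAdd (1 : ZMod 2) := congrArg Prod.snd e4
  rw [f1, f2, f3, mul_one, mul_one] at f4
  exact absurd f4 (by decide)

theorem ext_prodType {D : QStruct} (hD : ∀ a b, D.q a b = D.zero) (hf : Finite (ext D).G)
    (h : ThreeGroups (ext D)) : ProdType (ext D) := by
  by_cases h1 : ∀ a : D.G, a = 1
  · apply ProdType.deg _ hf
    intro u v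
    apply Subtype.ext
    apply Prod.ext
    · exact hD _ _
    · exact h1 _
  · push Not at h1
    obtain ⟨a, ha⟩ := h1
    have h2 : ∀ b : D.G, b = 1 ∨ b = a := by
      intro b
      rcases ext_small h a b with h | h | h
      · exact absurd h ha
      · exact Or.inl h
      · exact Or.inr h.symm
    apply ProdType.nondeg _ hf
    · rintro ⟨b, β⟩ hb
      rcases two_cases β with rfl | rfl
      · have h3 : extMap D (b, 1) (1, Multiplicative.ofAdd 1) = (D.zero, 1) :=
          congrArg Subtype.val (hb (1, Multiplicative.ofAdd 1))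
        rw [extMap_one_x] at h3
        have h4 : b = 1 := congrArg Prod.snd h3
        rw [h4]; rfl
      · exfalso
        have h3 : extMap D (b, Multiplicative.ofAdd 1) (a, 1) = (D.zero, 1) :=
          congrArg Subtype.val (hb (a, 1))
        rw [extMap_x_one] at h3
        exact ha (congrArg Prod.snd h3)
    · rw [Nat.card_eq_two_iff]
      refine ⟨(ext D).zero, (ext D).q (a, 1) (1, Multiplicative.ofAdd 1), ?_, ?_⟩
      · intro h3
        have h4 : (D.zero, 1) = extMap D (a, 1) (1, Multiplicative.ofAdd 1) :=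
          congrArg Subtype.val h3
        rw [extMap_one_x] at h4
        exact ha (congrArg Prod.snd h4).symm
      · apply Set.eq_univ_of_forall
        rintro ⟨⟨p, g⟩, u, v, huv⟩
        have hp : p = D.zero := (congrArg Prod.fst huv).symm.trans (hD _ _)
        rcases h2 g with rfl | rfl
        · left
          apply Subtype.ext
          exact Prod.ext hp rfl
        · right
          apply Subtype.ext
          change (p, g) = extMap D (g, 1) (1, Multiplicative.ofAdd 1)
          rw [extMap_one_x]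
          exact Prod.ext (by rw [hp, hD]) rfl

theorem L1_prodType {S : QStruct} (h : Nat.card S.G = 2) (h1 : S.neg ≠ 1)
    (h2 : S.q S.neg S.neg ≠ S.zero) : ProdType S := by
  have hf : Finite S.G := Nat.finite_of_card_ne_zero (by omega)
  have hG : ∀ g : S.G, g = 1 ∨ g = S.neg := by
    intro g
    obtain ⟨x, y, hxy, huniv⟩ := Nat.card_eq_two_iff.1 h
    have m : ∀ t : S.G, t = x ∨ t = y := by
      intro t
      have : t ∈ ({x, y} : Set S.G) := by rw [huniv]; trivial
      simpa using this
    rcases m g with rfl | rfl <;> rcases m 1 with h3 | h3 <;> rcases m S.neg with h4 | h4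
    all_goals first
      | (left; exact h3.symm)
      | (right; exact h4.symm)
      | (exfalso; exact h1 (h4.trans h3.symm))
  apply ProdType.nondeg _ hf
  · intro a ha
    rcases hG a with h3 | h3
    · exact h3
    · exfalso
      rw [h3] at ha
      exact h2 (ha _)
  · rw [Nat.card_eq_two_iff]
    refine ⟨S.zero, S.q S.neg S.neg, fun h => h2 h.symm, ?_⟩
    apply Set.eq_univ_of_forall
    intro β
    obtain ⟨a, b, rfl⟩ := S.surj β
    rcases hG a with rfl | rfl
    · left; rw [S.qs2, S.q_one]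
    · rcases hG b with rfl | rfl
      · left; rw [S.q_one]
      · right; rfl

theorem SlotType.prodType {S : QStruct} (h : SlotType S) :
    Finite S.G → ThreeGroups S → ProdType S := by
  induction h with
  | L0 S h =>
    intro hf _
    apply ProdType.deg _ hf
    intro a b
    have : Subsingleton S.G := (Nat.card_eq_one_iff_unique.1 h).1
    rw [Subsingleton.elim b 1, S.q_one]
  | L10 S h h1 h2 => intro hf _; exact ProdType.deg _ hf h2
  | L11 S h h1 h2 => intro hf _; exact ProdType.deg _ hf h2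
  | L1 S h h1 h2 => intro _ _; exact L1_prodType h h1 h2
  | loc S hf h h1 h2 => intro _ _; exact ProdType.nondeg _ hf h1 h2
  | prod S T _ _ h1 h2 =>
    intro hf hT
    have hf' : Finite (S.G × T.G) := hf
    have f1 : Finite S.G := Finite.of_surjective (fun p : S.G × T.G => p.1)
      (fun x => ⟨(x, 1), rfl⟩)
    have f2 : Finite T.G := Finite.of_surjective (fun p : S.G × T.G => p.2)
      (fun x => ⟨(1, x), rfl⟩)
    exact ProdType.prod _ _ (h1 f1 hT.fst) (h2 f2 hT.snd)
  | ext D hD _ _ => intro hf hT; exact ext_prodType hD hf hT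
  | iso S T h _ h2 =>
    intro hf hT
    have f1 : Finite S.G := by
      obtain ⟨φ, _⟩ := h
      exact Finite.of_equiv _ φ.symm.toEquiv
    exact ProdType.iso _ _ h (h2 f1 (hT.iso h.symm))

/-- Main theorem. -/
theorem threeGroups_main (S : QStruct) [hf : Finite S.G] :
    (ThreeGroups S ↔ ProdType S) ∧ (ThreeGroups S → ElemType S) := by
  refine ⟨⟨?_, ProdType.threeGroups⟩, ?_⟩
  · intro h
    exact ((main S).1.1 h.exists_slot).prodType hf h
  · intro h
    exact (main S).2 h.exists_slot

end QS
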