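import Pool.Agent.Helper58.PLine.Atoms

/-!
There is no relation `φ₁ + φ₂ + φ₃ = 0` between nonzero functionals of three distinct atoms.
-/

namespace Pool.Agent.Helper58.PLine

theorem even_card_of_ne_bot {M : Type} [AddCommGroup M] [Module (ZMod 2) M] [Finite M]
    {W : Submodule (ZMod 2) M} {w : M} (hw : w ∈ W) (h0 : w ≠ 0) : Even (Nat.card W) := by
  have h1 : Module.finrank (ZMod 2) W ≠ 0 := by
    intro h
    rw [Module.finrank_eq_zero_iff_of_free] at h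
    have := Subsingleton.elim (⟨w, hw⟩ : W) 0
    exact h0 (congrArg Subtype.val this)
  rw [Module.natCard_eq_pow_finrank (K := ZMod 2), Nat.card_zmod]
  exact (Nat.even_pow' h1).2 even_two

theorem odd_card_nonzero {M : Type} [AddCommGroup M] [Module (ZMod 2) M] [Fintype M]
    (p : M → Prop) [DecidablePred p] [DecidableEq M] (h0 : p 0) (hadd : ∀ x y, p x → p y → p (x + y))
    {w : M} (hw : p w) (hw0 : w ≠ 0) :
    Odd (Finset.univ.filter (fun x : M => x ≠ 0 ∧ p x)).card := by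
  let W : Submodule (ZMod 2) M :=
    { carrier := {x | p x}
      add_mem' := fun {a b} ha hb => hadd a b ha hb
      zero_mem' := h0
      smul_mem' := by
        intro c x hx
        rcases zm c with rfl | rfl
        · rw [zero_smul]; exact h0
        · rw [one_smul]; exact hx }
  have h1 := even_card_of_ne_bot (W := W) (w := w) hw hw0
  have h2 : Nat.card W = (Finset.univ.filter (fun x : M => p x)).card := by
    have h4 : Nat.card {x : M // p x} = (Finset.univ.filter (fun x : M => p x)).card := by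
      rw [Nat.card_eq_fintype_card, Fintype.card_subtype]
    rw [← h4]
    exact Nat.card_congr (Equiv.refl _)
  have h3 : Finset.univ.filter (fun x : M => p x) =
      insert 0 (Finset.univ.filter (fun x : M => x ≠ 0 ∧ p x)) := by
    ext x
    simp only [Finset.mem_filter, Finset.mem_univ, true_and, Finset.mem_insert]
    constructor
    · intro hx
      by_cases hx0 : x = 0
      · exact Or.inl hx0
      · exact Or.inr ⟨hx0, hx⟩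
    · rintro (rfl | h)
      · exact h0
      · exact h.2
  rw [h2, h3, Finset.card_insert_of_notMem (by simp)] at h1
  rcases Nat.even_or_odd (Finset.univ.filter (fun x : M => x ≠ 0 ∧ p x)).card with h | h
  · exact absurd h1 (Nat.not_even_iff_odd.2 h.add_one)
  · exact h

namespace QData

variable {V Q : Type} [AddCommGroup V] [Module (ZMod 2) V] {D : QData V Q}
variable [Fintype V] (hD : D.NoLine)
include hD

/-- the first consequence of a relation between three atoms -/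
theorem tri_inf {M₁ M₂ M₃ : Submodule (ZMod 2) V} (h₁ : D.Atom M₁) (h₂ : D.Atom M₂)
    (h₃ : D.Atom M₃) (n₁₂ : M₁ ≠ M₂) {a₁ a₂ a₃ : V →ₗ[ZMod 2] ZMod 2}
    (ha₁ : a₁ ≠ 0) (ha₂ : a₂ ≠ 0) (p₁ : Perp M₁ a₁) (p₂ : Perp M₂ a₂) (p₃ : Perp M₃ a₃)
    (h : a₁ + a₂ = a₃) : M₁ ⊓ M₂ ≤ M₃ := by
  obtain ⟨h1, h2⟩ := inf_le hD h₁ h₂ n₁₂ ha₁ p₁ ha₂ p₂
  rw [h] at h1 h2
  rwa [(atom_U hD h₃ h1.1 p₃).2] at h2

/-- other atoms above `M₁ ⊓ M₂` -/
theorem inf_le_of_atom {M M₁ M₂ : Submodule (ZMod 2) V} (hM : D.Atom M) (h₁ : D.Atom M₁)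
    (h₂ : D.Atom M₂) (hle : M₁ ⊓ M₂ ≤ M) (hne : M ≠ M₁) : M ⊓ M₁ ≤ M₂ := by
  by_cases hM2 : M = M₂
  · rw [hM2]; exact inf_le_left
  obtain ⟨x, hx⟩ := atom_ne_top hM
  obtain ⟨χ, hχ1, hχ2⟩ := exists_functional hx
  have hχ0 : χ ≠ 0 := by rintro rfl; simp at hχ1
  obtain ⟨b₁, b₂, p₁, p₂, hb⟩ := perp_inf (M := M₁) (N := M₂) (ψ := χ) (Perp.mono hχ2 hle)
  have hb₁ : b₁ ≠ 0 := by
    rintro rfl
    rw [zero_add] at hb
    exact hχ0 (atom_disj hD hM h₂ hM2 hχ2 (hb ▸ p₂))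
  have hb₂ : χ + b₁ = b₂ := by
    rw [← hb, add_comm b₁ b₂, add_self_add]
  exact tri_inf hD hM h₁ h₂ hne hχ0 hb₁ hχ2 p₁ p₂ hb₂

theorem no_triple {M₁ M₂ M₃ : Submodule (ZMod 2) V} (h₁ : D.Atom M₁) (h₂ : D.Atom M₂)
    (h₃ : D.Atom M₃) (n₁₂ : M₁ ≠ M₂) (n₁₃ : M₁ ≠ M₃) (n₂₃ : M₂ ≠ M₃)
    {a₁ a₂ a₃ : V →ₗ[ZMod 2] ZMod 2} (ha₁ : a₁ ≠ 0) (ha₂ : a₂ ≠ 0) (ha₃ : a₃ ≠ 0)
    (p₁ : Perp M₁ a₁) (p₂ : Perp M₂ a₂) (p₃ : Perp M₃ a₃) (h : a₁ + a₂ = a₃) : False := by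
  classical
  have l₃ : M₁ ⊓ M₂ ≤ M₃ := tri_inf hD h₁ h₂ h₃ n₁₂ ha₁ ha₂ p₁ p₂ p₃ h
  have l₂ : M₁ ⊓ M₃ ≤ M₂ := tri_inf hD h₁ h₃ h₂ n₁₃ ha₁ ha₃ p₁ p₃ p₂
    (by rw [← h, add_add_self])
  -- every functional vanishing on `M₁ ⊓ M₂` belongs to an atom
  have claim : ∀ ψ : V →ₗ[ZMod 2] ZMod 2, ψ ≠ 0 → Perp (M₁ ⊓ M₂) ψ →
      D.Act ψ ∧ D.Atom (D.U ψ) := by
    intro ψ hψ0 hψ
    by_contra hc
    have hnot : ∀ M, D.Atom M → ¬ Perp M ψ := by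
      intro M hM hp
      obtain ⟨e1, e2⟩ := atom_U hD hM hψ0 hp
      exact hc ⟨e1, e2 ▸ hM⟩
    obtain ⟨b₁, b₂, q₁, q₂, hb⟩ := perp_inf hψ
    have hb₁ : b₁ ≠ 0 := by
      rintro rfl
      rw [zero_add] at hb
      exact hnot _ h₂ (hb ▸ q₂)
    have hb₂ : b₂ ≠ 0 := by
      rintro rfl
      rw [add_zero] at hb
      exact hnot _ h₁ (hb ▸ q₁)
    obtain ⟨hact, hU0⟩ := inf_le hD h₁ h₂ n₁₂ hb₁ q₁ hb₂ q₂
    rw [hb] at hact hU0
    -- `U ψ = M₁ ⊓ M₂`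
    have hU1 : D.U ψ ≤ M₁ ⊓ M₂ := by
      obtain ⟨M, hM, hMle⟩ := exists_atom hact
      have hle : M₁ ⊓ M₂ ≤ M := hU0.trans hMle
      -- choose `N` among `M₁`, `M₂`
      have hN : ∃ N, D.Atom N ∧ M ≠ N ∧ M ⊓ N ≤ M₁ ⊓ M₂ := by
        by_cases hM1 : M = M₁
        · refine ⟨M₂, h₂, hM1 ▸ n₁₂, ?_⟩
          rw [hM1]
        · exact ⟨M₁, h₁, hM1, le_inf inf_le_right (inf_le_of_atom hD hM h₁ h₂ hle hM1)⟩
      obtain ⟨N, hN, hMN, hMNle⟩ := hN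
      obtain ⟨c, d, r, s, hcd⟩ := perp_inf (M := M) (N := N) (Perp.mono hψ hMNle)
      have hd0 : d ≠ 0 := by
        rintro rfl
        rw [add_zero] at hcd
        exact hnot _ hM (hcd ▸ r)
      have hd : ψ + c = d := by rw [← hcd, add_comm c d, add_self_add]
      have hperp : Perp (D.U ψ) d := by
        rw [← hd]
        exact (perp_U hact).add (r.mono hMle)
      have hle2 := (U_le hD hact hd0 hperp).2
      rw [(atom_U hD hN hd0 s).2] at hle2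
      exact (le_inf hMle hle2).trans hMNle
    -- a second decomposition
    obtain ⟨c₁, c₃, r₁, r₃, hc'⟩ := perp_inf (M := M₁) (N := M₃) (ψ := ψ)
      (Perp.mono hψ (le_inf inf_le_left l₂))
    have hc₁ : c₁ ≠ 0 := by
      rintro rfl
      rw [zero_add] at hc'
      exact hnot _ h₃ (hc' ▸ r₃)
    have hc₃ : c₃ ≠ 0 := by
      rintro rfl
      rw [add_zero] at hc'
      exact hnot _ h₁ (hc' ▸ r₁)
    obtain ⟨x, hx1, hx2⟩ := exists_pair hD h₁ h₂ n₁₂ hb₁ q₁ hb₂ q₂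
    obtain ⟨y, hy1, hy2⟩ := exists_pair hD h₁ h₃ n₁₃ hc₁ r₁ hc₃ r₃
    have hx : D.P ψ x := hb ▸ P.add D hx1 hx2
    have hy : D.P ψ y := hc' ▸ P.add D hy1 hy2
    have hxy : x + y ∈ M₁ := (hU1 (add_mem_U hD hx hy)).1
    have hy3 : D.P b₁ y := by
      have h5 := (atom_U hD h₁ hb₁ q₁).2
      have h6 : x + y ∈ D.U b₁ := by rw [h5]; exact hxy
      have h7 := h6 x hx1
      rwa [add_add_self] at h7
    have h8 : b₁ = c₁ := atom_unique hD h₁ hb₁ q₁ hc₁ r₁ hy3 hy1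
    have h9 : b₂ = c₃ := by
      have : b₁ + b₂ = c₁ + c₃ := by rw [hb, hc']
      rw [h8] at this
      exact add_left_cancel this
    exact hb₂ (atom_disj hD h₂ h₃ n₂₃ q₂ (h9 ▸ r₃))
  -- counting
  have hfin : Finite (V →ₗ[ZMod 2] ZMod 2) :=
    Finite.of_injective (fun f : V →ₗ[ZMod 2] ZMod 2 => (f : V → ZMod 2)) DFunLike.coe_injective
  have : Fintype (V →ₗ[ZMod 2] ZMod 2) := Fintype.ofFinite _
  have hfinS : Finite (Submodule (ZMod 2) V) := inferInstance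
  have : Fintype (Submodule (ZMod 2) V) := Fintype.ofFinite _
  let A : Finset (Submodule (ZMod 2) V) :=
    Finset.univ.filter (fun M => D.Atom M ∧ M₁ ⊓ M₂ ≤ M)
  have hA : ∀ M, M ∈ A ↔ D.Atom M ∧ M₁ ⊓ M₂ ≤ M := fun M => by simp [A]
  let F : Finset (V →ₗ[ZMod 2] ZMod 2) :=
    Finset.univ.filter (fun ψ => ψ ≠ 0 ∧ Perp (M₁ ⊓ M₂) ψ)
  have hF : ∀ ψ, ψ ∈ F ↔ ψ ≠ 0 ∧ Perp (M₁ ⊓ M₂) ψ := fun ψ => by simp [F]
  have hFodd : Odd F.card :=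
    odd_card_nonzero (fun ψ : V →ₗ[ZMod 2] ZMod 2 => Perp (M₁ ⊓ M₂) ψ) (fun _ _ => rfl)
      (fun _ _ hx hy => hx.add hy) (w := a₁) (p₁.mono inf_le_left) ha₁
  have hmaps : ∀ ψ ∈ F, D.U ψ ∈ A := by
    intro ψ hψ
    obtain ⟨h0, hp⟩ := (hF ψ).1 hψ
    obtain ⟨e1, e2⟩ := claim ψ h0 hp
    refine (hA _).2 ⟨e2, ?_⟩
    intro u hu
    by_contra hu'
    obtain ⟨y, hy⟩ := e1.2
    -- `u ∈ M₁ ⊓ M₂`: write `ψ = b₁ + b₂`
    obtain ⟨b₁, b₂, q₁, q₂, hb⟩ := perp_inf hp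
    by_cases hb₁ : b₁ = 0
    · rw [hb₁, zero_add] at hb
      have := (atom_U hD h₂ h0 (hb ▸ q₂)).2
      rw [this] at hu'
      exact hu' hu.2
    · by_cases hb₂ : b₂ = 0
      · rw [hb₂, add_zero] at hb
        have := (atom_U hD h₁ h0 (hb ▸ q₁)).2
        rw [this] at hu'
        exact hu' hu.1
      · have := (inf_le hD h₁ h₂ n₁₂ hb₁ q₁ hb₂ q₂).2
        rw [hb] at this
        exact hu' (this hu)
  have hfib : ∀ M ∈ A, Odd (F.filter (fun ψ => D.U ψ = M)).card := by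
    intro M hM
    obtain ⟨hM1, hM2⟩ := (hA M).1 hM
    obtain ⟨x, hx⟩ := atom_ne_top hM1
    obtain ⟨χ, hχ1, hχ2⟩ := exists_functional hx
    have hχ0 : χ ≠ 0 := by rintro rfl; simp at hχ1
    have h5 : F.filter (fun ψ => D.U ψ = M) =
        Finset.univ.filter (fun ψ : V →ₗ[ZMod 2] ZMod 2 => ψ ≠ 0 ∧ Perp M ψ) := by
      ext ψ
      rw [Finset.mem_filter, hF, Finset.mem_filter]
      constructor
      · rintro ⟨⟨h6, h7⟩, h8⟩
        refine ⟨Finset.mem_univ _, h6, ?_⟩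
        rw [← h8]
        exact perp_U (claim ψ h6 h7).1
      · rintro ⟨_, h6, h7⟩
        exact ⟨⟨h6, h7.mono hM2⟩, (atom_U hD hM1 h6 h7).2⟩
    rw [h5]
    exact odd_card_nonzero (fun ψ : V →ₗ[ZMod 2] ZMod 2 => Perp M ψ) (fun _ _ => rfl)
      (fun _ _ hx hy => hx.add hy) (w := χ) hχ2 hχ0
  have hAodd : Odd A.card := by
    have h5 := Finset.card_eq_sum_card_fiberwise (f := fun ψ => D.U ψ) (s := F) (t := A)
      (fun ψ hψ => hmaps ψ hψ)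
    rw [h5, Finset.odd_sum_iff_odd_card_odd] at hFodd
    have h6 : A.filter (fun M => Odd (F.filter (fun ψ => D.U ψ = M)).card) = A := by
      apply Finset.filter_true_of_mem
      exact hfib
    rwa [h6] at hFodd
  -- a point of `M₁` outside `M₂`
  obtain ⟨y, hy1, hy2⟩ : ∃ y, y ∈ M₁ ∧ y ∉ M₂ := by
    by_contra hc
    push Not at hc
    have h5 : M₁ ≤ M₂ := hc
    obtain ⟨x, hx⟩ := atom_ne_top h₂
    obtain ⟨χ, hχ1, hχ2⟩ := exists_functional hx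
    have hχ0 : χ ≠ 0 := by rintro rfl; simp at hχ1
    exact hχ0 (atom_disj hD h₁ h₂ n₁₂ (Perp.mono hχ2 h5) hχ2)
  let G : Finset (V →ₗ[ZMod 2] ZMod 2) :=
    Finset.univ.filter (fun ψ => ψ ≠ 0 ∧ (Perp (M₁ ⊓ M₂) ψ ∧ D.P ψ y))
  have hG : ∀ ψ, ψ ∈ G ↔ ψ ≠ 0 ∧ (Perp (M₁ ⊓ M₂) ψ ∧ D.P ψ y) := fun ψ => by simp [G]
  obtain ⟨χ, hχ0, hχ1, hχ2⟩ := atom_exists hD h₂ hy2
  have hGodd : Odd G.card :=
    odd_card_nonzero (fun ψ : V →ₗ[ZMod 2] ZMod 2 => Perp (M₁ ⊓ M₂) ψ ∧ D.P ψ y)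
      ⟨fun _ _ => rfl, D.P_zero y⟩ (fun _ _ hx hy => ⟨hx.1.add hy.1, P.add D hx.2 hy.2⟩)
      (w := χ) ⟨hχ1.mono inf_le_right, hχ2⟩ hχ0
  have hGcard : G.card = (A.erase M₁).card := by
    apply Finset.card_bij (fun ψ _ => D.U ψ)
    · intro ψ hψ
      obtain ⟨h0, hp, hPy⟩ := (hG ψ).1 hψ
      refine Finset.mem_erase.2 ⟨?_, hmaps ψ ((hF ψ).2 ⟨h0, hp⟩)⟩
      intro hc
      exact notMem_U h0 hPy (by rw [hc]; exact hy1)
    · intro ψ hψ ψ' hψ' he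
      obtain ⟨h0, hp, hPy⟩ := (hG ψ).1 hψ
      obtain ⟨h0', hp', hPy'⟩ := (hG ψ').1 hψ'
      obtain ⟨e1, e2⟩ := claim ψ h0 hp
      obtain ⟨e1', e2'⟩ := claim ψ' h0' hp'
      exact atom_unique hD e2 h0 (perp_U e1) h0' (by rw [he]; exact perp_U e1') hPy hPy'
    · intro M hM
      obtain ⟨hne, hM⟩ := Finset.mem_erase.1 hM
      obtain ⟨hM1, hM2⟩ := (hA M).1 hM
      have hyM : y ∉ M := by
        intro hc
        exact hy2 (inf_le_of_atom hD hM1 h₁ h₂ hM2 hne ⟨hc, hy1⟩)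
      obtain ⟨ψ, h0, hp, hPy⟩ := atom_exists hD hM1 hyM
      exact ⟨ψ, (hG ψ).2 ⟨h0, hp.mono hM2, hPy⟩, (atom_U hD hM1 h0 hp).2⟩
  have hM1A : M₁ ∈ A := (hA M₁).2 ⟨h₁, inf_le_left⟩
  have h5 := Finset.card_erase_add_one hM1A
  rw [hGcard] at hGodd
  rw [← h5] at hAodd
  exact (Nat.not_even_iff_odd.2 hAodd) hGodd.add_one

end QData

end Pool.Agent.Helper58.PLine
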